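import Pool.Agent.Helper4.AE.St

/-!
# Project AE, module VAR (first and second moment)
-/

set_option autoImplicit false

namespace Pool.Agent.Helper92.AE

open Pool.Agent.Helper4.AE
open Finset

private lemma nn_eq {m : ℕ} (A : Finset (ZMod m)) (h : ℕ) (v : ZMod m) :
    Nn A h v = ∑ a ∈ A, ∑ i ∈ range h, if v = a - (i : ZMod m) then 1 else 0 := by
  unfold Nn
  rw [Finset.card_filter, Finset.sum_product]
  refine Finset.sum_congr rfl fun a _ => Finset.sum_congr rfl fun i _ => ?_
  have : a = v + (i : ZMod m) ↔ v = a - (i : ZMod m) := by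
    constructor
    · intro h; rw [h]; ring
    · intro h; rw [h]; ring
  simp only [this]

private lemma tt_eq {m : ℕ} (h : ℕ) (d : ZMod m) :
    TT m h d = ∑ i ∈ range h, ∑ j ∈ range h, if (i : ZMod m) - (j : ZMod m) = d then 1 else 0 := by
  unfold TT
  rw [Finset.card_filter, Finset.sum_product]

theorem hVAR : StVAR := by
  intro m _ A h
  constructor
  · calc ∑ v : ZMod m, Nn A h v
        = ∑ v : ZMod m, ∑ a ∈ A, ∑ i ∈ range h, (if v = a - (i : ZMod m) then 1 else 0) :=
          Finset.sum_congr rfl fun v _ => nn_eq A h v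
      _ = ∑ a ∈ A, ∑ i ∈ range h, ∑ v : ZMod m, (if v = a - (i : ZMod m) then 1 else 0) := by
          rw [Finset.sum_comm]
          refine Finset.sum_congr rfl fun a _ => ?_
          rw [Finset.sum_comm]
      _ = ∑ a ∈ A, ∑ i ∈ range h, 1 := by
          refine Finset.sum_congr rfl fun a _ => Finset.sum_congr rfl fun i _ => ?_
          rw [Finset.sum_ite_eq']
          simp
      _ = A.card * h := by simp
  · have key : ∀ v : ZMod m, Nn A h v ^ 2 =
        ∑ a ∈ A, ∑ a' ∈ A, ∑ i ∈ range h, ∑ j ∈ range h,
          (if v = a - (i : ZMod m) then (if v = a' - (j : ZMod m) then 1 else 0) else 0) := by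
      intro v
      rw [pow_two, nn_eq, Finset.sum_mul_sum]
      refine Finset.sum_congr rfl fun a _ => Finset.sum_congr rfl fun a' _ => ?_
      rw [Finset.sum_mul_sum]
      refine Finset.sum_congr rfl fun i _ => Finset.sum_congr rfl fun j _ => ?_
      split_ifs <;> simp
    calc ∑ v : ZMod m, Nn A h v ^ 2
        = ∑ v : ZMod m, ∑ a ∈ A, ∑ a' ∈ A, ∑ i ∈ range h, ∑ j ∈ range h,
          (if v = a - (i : ZMod m) then (if v = a' - (j : ZMod m) then 1 else 0) else 0) :=
          Finset.sum_congr rfl fun v _ => key v
      _ = ∑ a ∈ A, ∑ a' ∈ A, ∑ i ∈ range h, ∑ j ∈ range h, ∑ v : ZMod m,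
          (if v = a - (i : ZMod m) then (if v = a' - (j : ZMod m) then 1 else 0) else 0) := by
          rw [Finset.sum_comm]
          refine Finset.sum_congr rfl fun a _ => ?_
          rw [Finset.sum_comm]
          refine Finset.sum_congr rfl fun a' _ => ?_
          rw [Finset.sum_comm]
          refine Finset.sum_congr rfl fun i _ => ?_
          rw [Finset.sum_comm]
      _ = ∑ a ∈ A, ∑ a' ∈ A, TT m h (a - a') := by
          refine Finset.sum_congr rfl fun a _ => Finset.sum_congr rfl fun a' _ => ?_
          rw [tt_eq]
          refine Finset.sum_congr rfl fun i _ => Finset.sum_congr rfl fun j _ => ?_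
          rw [Finset.sum_ite_eq']
          have : a - (i : ZMod m) = a' - (j : ZMod m) ↔ (i : ZMod m) - (j : ZMod m) = a - a' := by
            constructor
            · intro h
              linear_combination -h
            · intro h
              linear_combination -h
          simp only [Finset.mem_univ, if_true, this]

end Pool.Agent.Helper92.AE
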